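import Pool.Agent.TBP.StmtsA

/-! Row SIZ of the squad TBP: sizes. -/

set_option autoImplicit false

namespace Pool.Agent.TBP.H97

open Finset Pool.Agent.TBP

theorem siz_ww {J : ℕ} (hJ : 1 ≤ J) : WW J ≤ (lw J 0) ^ 4 := by
  unfold WW lw
  calc (primorial (2 ^ J)) ^ (J + 1) ≤ (4 ^ (2 ^ J)) ^ (J + 1) :=
        Nat.pow_le_pow_left (primorial_le_four_pow _) _
    _ = 2 ^ (2 * (2 ^ J * (J + 1))) := by
        rw [← pow_mul, show (4 : ℕ) = 2 ^ 2 by norm_num, ← pow_mul]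
    _ ≤ 2 ^ (J * 2 ^ (J - 0) * 4) := by
        refine Nat.pow_le_pow_right (by norm_num) ?_
        rw [Nat.sub_zero]
        calc 2 * (2 ^ J * (J + 1)) = 2 ^ J * (2 * (J + 1)) := by ring
          _ ≤ 2 ^ J * (4 * J) := Nat.mul_le_mul_left _ (by omega)
          _ = J * 2 ^ J * 4 := by ring
    _ = (2 ^ (J * 2 ^ (J - 0))) ^ 4 := by rw [← pow_mul]

theorem siz_pos (J : ℕ) : 0 < WW J := by
  unfold WW
  exact pow_pos (primorial_pos _) _

theorem siz_two {J : ℕ} (hJ : 1 ≤ J) : 2 ≤ lw J 0 := by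
  unfold lw
  calc 2 = 2 ^ 1 := by norm_num
    _ ≤ 2 ^ (J * 2 ^ (J - 0)) := by
        refine Nat.pow_le_pow_right (by norm_num) ?_
        exact Nat.mul_pos hJ (pow_pos (by norm_num) _)

/-- **SIZ** -/
theorem siz (hV : VlbStmt) : SizStmt := by
  intro θ K h0 h1
  obtain ⟨J1, hJ1⟩ := hV θ h0 h1
  refine ⟨K + 8, max J1 1, by omega, ?_⟩
  intro J hJ
  have hJ' : J1 ≤ J := (le_max_left _ _).trans hJ
  have hJ0 : 1 ≤ J := (le_max_right _ _).trans hJ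
  have hw2 := siz_two hJ0
  have hv := hJ1 J hJ'
  have hww := siz_ww hJ0
  have hwp := siz_pos J
  have hT : (lw J 0) ^ (4 * (K + 8) - 4) ≤ TT (K + 8) J := by
    unfold TT
    rw [Nat.le_div_iff_mul_le hwp]
    calc (lw J 0) ^ (4 * (K + 8) - 4) * WW J ≤ (lw J 0) ^ (4 * (K + 8) - 4) * (lw J 0) ^ 4 :=
          Nat.mul_le_mul_left _ hww
      _ = (lw J 0) ^ (4 * (K + 8)) := by
          rw [← pow_add]
          exact congrArg _ (by omega)
  have hU : WW J * TT (K + 8) J ≤ (lw J 0) ^ (4 * (K + 8)) := by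
    unfold TT
    exact Nat.mul_div_le _ _
  generalize TT (K + 8) J = T at hT hU ⊢
  generalize lw J 0 = w at *
  generalize VV θ J = V at *
  have hw0 : 0 < w := by omega
  have e2 : ∀ m : ℕ, 2 * w ^ m ≤ w ^ (m + 1) := fun m => by
    rw [pow_succ']
    exact Nat.mul_le_mul_right _ hw2
  have c1 : 2 * w ^ (3 * (K + 8)) ≤ w ^ (4 * (K + 8) - 5) :=
    (e2 _).trans (Nat.pow_le_pow_right hw0 (by omega))
  have c2 : w ^ (4 * (K + 8) - 5) ≤ w ^ (4 * (K + 8) - 4) :=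
    Nat.pow_le_pow_right hw0 (by omega)
  have hwR : (0 : ℝ) < (w : ℝ) := by exact_mod_cast hw0
  have hw1 : (1 : ℝ) ≤ (w : ℝ) := by exact_mod_cast hw0
  have hw2R : (2 : ℝ) ≤ (w : ℝ) := by exact_mod_cast hw2
  have hV0 : 0 < V := by
    by_contra hn
    have h2 : V * (w : ℝ) ≤ 0 := mul_nonpos_of_nonpos_of_nonneg (not_lt.1 hn) hwR.le
    linarith
  have hTV : (w : ℝ) ^ (4 * (K + 8) - 5) ≤ (T : ℝ) * V := by
    have h3 : ((w : ℝ)) ^ (4 * (K + 8) - 4) ≤ (T : ℝ) := by exact_mod_cast hT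
    calc (w : ℝ) ^ (4 * (K + 8) - 5) = (w : ℝ) ^ (4 * (K + 8) - 5) * 1 := (mul_one _).symm
      _ ≤ (w : ℝ) ^ (4 * (K + 8) - 5) * (V * (w : ℝ)) :=
          mul_le_mul_of_nonneg_left hv (pow_pos hwR _).le
      _ = ((w : ℝ) ^ (4 * (K + 8) - 5) * (w : ℝ)) * V := by ring
      _ = (w : ℝ) ^ (4 * (K + 8) - 4) * V := by
          rw [← pow_succ]
          congr 2
      _ ≤ (T : ℝ) * V := mul_le_mul_of_nonneg_right h3 hV0.le
  refine ⟨hJ0, ?_, ?_, ?_, ?_, hU, ?_, ?_⟩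
  · exact (Nat.one_le_iff_ne_zero.2 (pow_ne_zero _ (by omega))).trans hT
  · exact c1.trans (c2.trans hT)
  · calc w = w ^ 1 := (pow_one w).symm
      _ ≤ w ^ (4 * (K + 8)) := Nat.pow_le_pow_right hw0 (by omega)
  · exact c1.trans (Nat.pow_le_pow_right hw0 (by omega))
  · refine le_trans ?_ hTV
    calc (w : ℝ) ^ K * (2 * (w : ℝ) ^ (3 * (K + 8))) ≤
          (w : ℝ) ^ K * ((w : ℝ) * (w : ℝ) ^ (3 * (K + 8))) := by
          refine mul_le_mul_of_nonneg_left ?_ (pow_pos hwR _).le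
          exact mul_le_mul_of_nonneg_right hw2R (pow_pos hwR _).le
      _ = (w : ℝ) ^ (K + (3 * (K + 8) + 1)) := by
          rw [pow_add, pow_succ']
      _ ≤ (w : ℝ) ^ (4 * (K + 8) - 5) := pow_le_pow_right₀ hw1 (by omega)
  · refine le_trans ?_ hTV
    calc 4 * (w : ℝ) ^ K ≤ (w : ℝ) ^ 2 * (w : ℝ) ^ K := by
          refine mul_le_mul_of_nonneg_right ?_ (pow_pos hwR _).le
          nlinarith
      _ = (w : ℝ) ^ (2 + K) := by rw [pow_add]
      _ ≤ (w : ℝ) ^ (4 * (K + 8) - 5) := pow_le_pow_right₀ hw1 (by omega)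

end Pool.Agent.TBP.H97
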